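import Mathlib
import Pool.Agent.H431Z.Iso.Final

set_option autoImplicit false

namespace Pool.Agent.Results.MP_24ca2e_an.ANotManifold

open Pool.Agent.H431Z.Iso

/-- Some IsoDOS set is a topological manifold of no dimension. -/
theorem result : ∃ (V E : Type) (_ : Fintype V) (_ : Fintype E) (_ : DecidableEq V)
    (G : Multigraph V E), G.Connected ∧ (∀ x, 2 ≤ G.degree x) ∧ Nonempty G.UniversalCover ∧
    ∃ J₀ : (V → ℝ) × (E → ℝ), (∀ e, 0 < J₀.2 e) ∧ ∀ (U : G.UniversalCover) (n : ℕ),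
      IsEmpty (ChartedSpace (EuclideanSpace ℝ (Fin n)) (isoDOS U J₀)) :=
  main

end Pool.Agent.Results.MP_24ca2e_an.ANotManifold
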